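import Mathlib
import Pool.Agent.H27.DelB

namespace Pool.Agent.Results.MP_c45f9b_nt.Cube
open Finset Pool.Agent.H27.DelA

/-- The Delannoy polynomial evaluated at an integer. -/
def D (n : ℕ) (x : ℤ) : ℤ :=
  ∑ k ∈ Finset.range (n + 1), (n.choose k : ℤ) * ((n + k).choose k : ℤ) * x ^ k

def dd (k : ℕ) : ℤ := ((2 * k).choose k : ℤ)

theorem D_eq (k M : ℕ) (h : k < M) (x : ℤ) : D k x = ∑ i ∈ range M, phi i k * x ^ i := by
  unfold D
  refine Finset.sum_subset (range_subset_range.mpr h) fun i _ hi => ?_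
  rw [Nat.choose_eq_zero_of_lt (show k < i by simpa using hi)]; simp

theorem sq_expand (k M : ℕ) (h : k < M) (u : ℕ → ℤ) :
    (∑ i ∈ range M, phi i k * u i) ^ 2
      = ∑ s ∈ range M, phi s k * ∑ i ∈ range M, ∑ j ∈ range M, cc i j s * (u i * u j) := by
  rw [pow_two, Finset.sum_mul_sum]
  simp only [Finset.mul_sum]
  rw [Finset.sum_comm (s := range M) (t := range M)
    (f := fun s i => ∑ j ∈ range M, phi s k * (cc i j s * (u i * u j)))]
  refine Finset.sum_congr rfl fun i _ => ?_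
  rw [Finset.sum_comm]
  refine Finset.sum_congr rfl fun j _ => ?_
  rw [show phi i k * u i * (phi j k * u j) = phi i k * phi j k * (u i * u j) by ring,
    phi_mul k M h, Finset.sum_mul]
  refine Finset.sum_congr rfl fun s _ => by ring

theorem D_sq (k M : ℕ) (h : k < M) (x : ℤ) :
    D k x ^ 2 = ∑ s ∈ range M, phi s k * (dd s * (x ^ 2 + x) ^ s) := by
  rw [D_eq k M h, sq_expand k M h]
  refine Finset.sum_congr rfl fun s hs => ?_
  rw [dd, ← cc_sum x s M (mem_range.mp hs)]
  simp only [pow_add]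

def aZ (N : ℕ) : ℤ := ∑ i ∈ range (N + 1), (N.choose i : ℤ) * dd i * dd (N - i)

open Polynomial in
noncomputable def Hp (M : ℕ) : ℤ[X] := ∑ k ∈ range (M + 1), C (dd k ^ 2) * (X * (1 - 4 * X)) ^ k

open Polynomial in
theorem coeff_Hp (M N : ℕ) (h : N ≤ M) : (Hp M).coeff N = aZ N := by
  have e : (((Hp M).map (Int.castRingHom ℚ) : ℚ[X]) : PowerSeries ℚ) = Pool.Agent.H27.DelB.H M := by
    rw [← coeToPowerSeries.ringHom_apply, ← coe_mapRingHom, Hp, Pool.Agent.H27.DelB.H]
    simp only [map_sum, map_mul, map_pow, map_sub, map_one, map_ofNat, coe_mapRingHom, map_X, map_C,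
      coeToPowerSeries.ringHom_apply, coe_X, coe_C, Pool.Agent.H27.DelB.Z, dd,
      Pool.Agent.H27.DelB.d, map_natCast]
  have := Pool.Agent.H27.DelB.coeff_H M N h
  rw [← e, coeff_coe, coeff_map, Pool.Agent.H27.DelB.a,
    Finset.Nat.sum_antidiagonal_eq_sum_range_succ_mk] at this
  apply Int.cast_injective (α := ℚ)
  rw [aZ]
  push_cast
  refine this.trans (Finset.sum_congr rfl fun i hi => ?_)
  have : i + (N - i) = N := by have := mem_range.mp hi; omega
  simp [this, dd, Pool.Agent.H27.DelB.d]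

theorem result (x : ℤ) (p : ℕ) (hp : p.Prime) (hodd : Odd p) :
    (∑ k ∈ Finset.range p, (-1) ^ k * (2 * (k : ℤ) + 1) * D k x ^ 4)
      ≡ (p : ℤ) * ∑ k ∈ Finset.range ((p - 1) / 2 + 1),
          (-1) ^ k * ((2 * k).choose k : ℤ) ^ 2 * (x ^ 2 + x) ^ k * (2 * x + 1) ^ (2 * k)
        [ZMOD (p : ℤ) ^ 3] := by
  obtain ⟨n, hn⟩ := hodd
  set y : ℤ := x ^ 2 + x with hy
  set u : ℕ → ℤ := fun i => dd i * y ^ i with hu
  set B : ℕ → ℤ := fun s => ∑ i ∈ range p, ∑ j ∈ range p, cc i j s * (u i * u j) with hB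
  -- step 1
  have s1 : (∑ k ∈ Finset.range p, (-1) ^ k * (2 * (k : ℤ) + 1) * D k x ^ 4)
      = p * ∑ s ∈ range p, (((2 * n).choose s : ℤ) * ((2 * n + 1 + s).choose s : ℤ)) * B s := by
    have : ∀ k ∈ range p, (-1) ^ k * (2 * (k : ℤ) + 1) * D k x ^ 4
        = ∑ s ∈ range p, (-1) ^ k * (2 * (k : ℤ) + 1) * phi s k * B s := by
      intro k hk
      rw [show D k x ^ 4 = (D k x ^ 2) ^ 2 by ring, D_sq k p (mem_range.mp hk),
        sq_expand k p (mem_range.mp hk), Finset.mul_sum]
      refine Finset.sum_congr rfl fun s _ => by rw [mul_assoc _ (phi s k)]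
    rw [Finset.sum_congr rfl this, Finset.sum_comm, Finset.mul_sum]
    refine Finset.sum_congr rfl fun s _ => ?_
    rw [← Finset.sum_mul]
    have h := alt_sum s (2 * n)
    rw [← hn] at h
    rw [h, hn]; push_cast
    rw [pow_mul]; ring
  have hpz : (p : ℤ) = ((2 * n : ℕ) : ℤ) + 1 := by rw [hn]; push_cast; ring
  -- step 2
  have s2 : (p : ℤ) ^ 2 ∣ ∑ s ∈ range p, (((2 * n).choose s : ℤ) * ((2 * n + 1 + s).choose s : ℤ)) * B s
      - ∑ s ∈ range p, (-1) ^ s * B s := by
    rw [← Finset.sum_sub_distrib]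
    refine Finset.dvd_sum fun s hs => ?_
    rw [← sub_mul, hpz]
    exact (psi_mod (2 * n) (hn ▸ hp) s (by have := mem_range.mp hs; omega)).mul_right _
  have s3 : ∑ s ∈ range p, (-1) ^ s * B s = ∑ i ∈ range p, ∑ j ∈ range p,
      y ^ (i + j) * (dd i * dd j * ∑ s ∈ range p, (-1) ^ s * cc i j s) := by
    simp only [hB, Finset.mul_sum]
    rw [Finset.sum_comm]
    refine Finset.sum_congr rfl fun i _ => ?_
    rw [Finset.sum_comm]
    refine Finset.sum_congr rfl fun j _ => Finset.sum_congr rfl fun s _ => ?_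
    simp only [hu]; ring
  have s4 : (p : ℤ) ^ 2 ∣ ∑ s ∈ range p, (-1) ^ s * B s - ∑ N ∈ range p, aZ N * (-y) ^ N := by
    have e : ∑ N ∈ range p, aZ N * (-y) ^ N = ∑ i ∈ range p, ∑ j ∈ range (p - i),
        y ^ (i + j) * (dd i * dd j * ∑ s ∈ range p, (-1) ^ s * cc i j s) := by
      rw [← Finset.sum_range_diag_flip p
        (fun i j => y ^ (i + j) * (dd i * dd j * ∑ s ∈ range p, (-1) ^ s * cc i j s))]
      refine Finset.sum_congr rfl fun N hN => ?_
      rw [aZ, Finset.sum_mul]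
      refine Finset.sum_congr rfl fun i hi => ?_
      have h1 : i + (N - i) = N := by have := mem_range.mp hi; omega
      rw [tau_full i (N - i) p (by have := mem_range.mp hN; omega), h1, neg_pow y]
      ring
    rw [s3, e, ← Finset.sum_sub_distrib]
    refine Finset.dvd_sum fun i hi => ?_
    rw [← Finset.sum_range_add_sum_Ico _ (Nat.sub_le p i), add_sub_cancel_left]
    refine Finset.dvd_sum fun j hj => Dvd.dvd.mul_left ?_ _
    have := mem_Ico.mp hj
    exact tau_big p i j hp (mem_range.mp hi) this.2 (by omega)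
  have s5 : ∑ k ∈ Finset.range (n + 1),
      (-1) ^ k * ((2 * k).choose k : ℤ) ^ 2 * y ^ k * (2 * x + 1) ^ (2 * k)
        = ∑ N ∈ range p, (Hp n).coeff N * (-y) ^ N := by
    have hdeg : (Hp n).natDegree < p := by
      have : (Hp n).natDegree ≤ 2 * n := by
        refine Polynomial.natDegree_sum_le_of_forall_le _ _ fun k hk => ?_
        refine (Polynomial.natDegree_C_mul_le _ _).trans (Polynomial.natDegree_pow_le.trans ?_)
        have h1 : (Polynomial.X * (1 - 4 * Polynomial.X) : Polynomial ℤ).natDegree ≤ 2 := by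
          compute_degree
        have h2 : k ≤ n := by have := mem_range.mp hk; omega
        nlinarith
      omega
    rw [← Polynomial.eval_eq_sum_range' hdeg, Hp, Polynomial.eval_finsetSum]
    refine Finset.sum_congr rfl fun k _ => ?_
    simp only [Polynomial.eval_mul, Polynomial.eval_pow, Polynomial.eval_C, Polynomial.eval_X,
      Polynomial.eval_sub, Polynomial.eval_one, Polynomial.eval_ofNat, dd]
    rw [pow_mul, show -y * (1 - 4 * -y) = -1 * y * (2 * x + 1) ^ 2 by rw [hy]; ring, mul_pow,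
      mul_pow]
    ring
  have s6 : (p : ℤ) ^ 2 ∣ ∑ N ∈ range p, aZ N * (-y) ^ N
      - ∑ N ∈ range p, (Hp n).coeff N * (-y) ^ N := by
    rw [← Finset.sum_sub_distrib]
    refine Finset.dvd_sum fun N hN => ?_
    rw [← sub_mul]
    refine Dvd.dvd.mul_right ?_ _
    rw [← coeff_Hp (2 * n) N (by have := mem_range.mp hN; omega), Hp, Hp,
      ← Finset.sum_range_add_sum_Ico _ (show n + 1 ≤ 2 * n + 1 by omega), Polynomial.coeff_add,
      add_sub_cancel_left, Polynomial.finsetSum_coeff]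
    refine Finset.dvd_sum fun k hk => ?_
    rw [Polynomial.coeff_C_mul]
    have := mem_Ico.mp hk
    exact (pow_dvd_pow_of_dvd (Int.natCast_dvd_natCast.mpr
      (hp.dvd_choose (by omega) (by omega) (by omega))) 2).mul_right _
  rw [s1, show (p - 1) / 2 = n by omega, s5]
  apply Int.ModEq.symm
  rw [Int.modEq_iff_dvd, ← mul_sub, pow_succ']
  refine mul_dvd_mul_left _ ?_
  obtain ⟨c, hc⟩ := dvd_add (dvd_add s2 s4) s6
  exact ⟨c, by linear_combination hc⟩

end Pool.Agent.Results.MP_c45f9b_nt.Cube
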